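import Mathlib

set_option autoImplicit false

namespace Pool.Agent.H.VRQ

def dist (x : ℕ) (z : ℕ → Bool) : ℕ → ℕ
  | 0 => 0
  | l + 1 => dist x z l + (if x.testBit l = z l then 0 else 1)

def idx (z : ℕ → Bool) : ℕ → ℕ
  | 0 => 0
  | l + 1 => idx z l + (if z l then 2 ^ l else 0)

noncomputable def M (x l : ℕ) : ℕ → ℕ :=
  Nat.rec (motive := fun _ => ℕ → ℕ) (fun k => Nat.rec 0 (fun _ _ => 1) k)
    (fun l ih k => Nat.rec 0 (fun k' _ =>
      cond (Nat.testBit x l) (Nat.lor (ih k') (Nat.shiftLeft (ih (Nat.succ k')) (Nat.pow 2 l)))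
        (Nat.lor (ih (Nat.succ k')) (Nat.shiftLeft (ih k') (Nat.pow 2 l)))) k) l

theorem M_zero (x l : ℕ) : M x l 0 = 0 := by cases l <;> rfl

theorem M_succ (x l k : ℕ) : M x (l + 1) (k + 1) =
    cond (Nat.testBit x l) (M x l k ||| (M x l (k + 1) <<< (2 ^ l)))
      (M x l (k + 1) ||| (M x l k <<< (2 ^ l))) := rfl

theorem idx_lt (z : ℕ → Bool) (l : ℕ) : idx z l < 2 ^ l := by
  induction l with
  | zero => simp [idx]
  | succ l ih => simp only [idx, pow_succ]; split_ifs <;> omega

theorem M_lt (x l k : ℕ) : M x l k < 2 ^ (2 ^ l) := by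
  induction l generalizing k with
  | zero => cases k <;> simp [M]
  | succ l ih =>
    cases k with
    | zero => rw [M_zero]; positivity
    | succ k =>
      have key : ∀ a b : ℕ, a < 2 ^ (2 ^ l) → b < 2 ^ (2 ^ l) →
          a ||| (b <<< (2 ^ l)) < 2 ^ (2 ^ (l + 1)) := by
        intro a b ha hb
        apply Nat.or_lt_two_pow
        · exact ha.trans_le (Nat.pow_le_pow_right (by norm_num)
            (Nat.pow_le_pow_right (by norm_num) (Nat.le_succ l)))
        · rw [Nat.shiftLeft_eq, pow_succ 2 l, mul_two, pow_add]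
          exact Nat.mul_lt_mul_of_pos_right hb (by positivity)
      rw [M_succ]
      cases x.testBit l
      · exact key _ _ (ih _) (ih _)
      · exact key _ _ (ih _) (ih _)

theorem M_spec (x : ℕ) (z : ℕ → Bool) (l k : ℕ) :
    (M x l k).testBit (idx z l) = decide (dist x z l < k) := by
  induction l generalizing k with
  | zero => cases k <;> simp [M, idx, dist]
  | succ l ih =>
    cases k with
    | zero => simp [M_zero]
    | succ k =>
      have key : ∀ a b : ℕ, a < 2 ^ (2 ^ l) →
          (a ||| (b <<< (2 ^ l))).testBit (idx z (l + 1)) =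
            if z l then b.testBit (idx z l) else a.testBit (idx z l) := by
        intro a b ha
        have h1 := idx_lt z l
        rw [Nat.testBit_or, Nat.testBit_shiftLeft]
        simp only [idx]
        split_ifs with h
        · rw [Nat.testBit_lt_two_pow (ha.trans_le (Nat.pow_le_pow_right (by norm_num) (by omega)))]
          simp
        · have : ¬ (idx z l ≥ 2 ^ l) := by omega
          simp [this]
      rw [M_succ]
      cases hx : x.testBit l <;> cases hz : z l <;>
        simp only [cond_true, cond_false, key _ _ (M_lt x l _), hz, ih, dist, hx] <;> simp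

noncomputable def mask (p : ℕ × ℕ) : ℕ := Nat.rec 0 (fun k' _ =>
  Nat.rec (M 0 19 (Nat.succ k')) (fun x' _ => M (Nat.succ x') 19 (Nat.succ k')) p.1) p.2

theorem mask_eq (p : ℕ × ℕ) : mask p = M p.1 19 p.2 := by
  obtain ⟨x, k⟩ := p
  cases k with
  | zero => simp [mask, M_zero]
  | succ k => cases x <;> rfl

noncomputable def andAll (l : List (ℕ × ℕ)) : ℕ :=
  List.rec (M 0 19 20) (fun p _ acc => Nat.land (mask p) acc) l

noncomputable def orAll (l : List (ℕ × ℕ)) : ℕ :=
  List.rec 0 (fun p _ acc => Nat.lor (mask p) acc) l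

noncomputable def upd (j : ℕ) (b : Bool) (l : List (ℕ × ℕ)) : List (ℕ × ℕ) :=
  List.rec [] (fun p _ acc =>
    (p.1, cond (Nat.testBit p.1 j == b) p.2 (Nat.sub p.2 1)) :: acc) l

noncomputable def fil (l : List (ℕ × ℕ)) : List (ℕ × ℕ) :=
  List.rec [] (fun p _ acc => Nat.rec acc (fun _ _ => p :: acc) p.2) l

theorem mem_fil (l : List (ℕ × ℕ)) (q : ℕ × ℕ) (h : q ∈ fil l) : q ∈ l := by
  induction l with
  | nil => exact h
  | cons p l ih =>
    obtain ⟨x, k⟩ := p
    cases k with
    | zero => exact List.mem_cons_of_mem _ (ih h)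
    | succ k =>
      rcases List.mem_cons.1 h with h | h
      · rw [h]; exact List.mem_cons_self
      · exact List.mem_cons_of_mem _ (ih h)

noncomputable def check (t : ℕ) : List (ℕ × ℕ) → List (ℕ × ℕ) → Bool :=
  Nat.rec (motive := fun _ => List (ℕ × ℕ) → List (ℕ × ℕ) → Bool)
    (fun r e => Nat.beq (Nat.lor (andAll r) (orAll e)) (orAll e))
    (fun t ih r e => ih (upd (Nat.add 19 t) false r) (fil (upd (Nat.add 19 t) false e)) &&
      ih (upd (Nat.add 19 t) true r) (fil (upd (Nat.add 19 t) true e))) t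

theorem dist_le (x : ℕ) (z : ℕ → Bool) (l : ℕ) : dist x z l ≤ l := by
  induction l with
  | zero => simp [dist]
  | succ l ih => simp only [dist]; split_ifs <;> omega

theorem andAll_spec (z : ℕ → Bool) (r : List (ℕ × ℕ)) (h : ∀ p ∈ r, dist p.1 z 19 < p.2) :
    (andAll r).testBit (idx z 19) = true := by
  induction r with
  | nil =>
    show (M 0 19 20).testBit _ = true
    rw [M_spec]
    have := dist_le 0 z 19
    simp; omega
  | cons p r ih =>
    show (mask p &&& andAll r).testBit _ = true
    rw [Nat.testBit_and, mask_eq, M_spec, ih fun q hq => h q (List.mem_cons_of_mem _ hq)]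
    simpa using h p List.mem_cons_self

theorem orAll_spec (z : ℕ → Bool) (e : List (ℕ × ℕ)) (h : (orAll e).testBit (idx z 19) = true) :
    ∃ p ∈ e, dist p.1 z 19 < p.2 := by
  induction e with
  | nil => simp [orAll] at h
  | cons p e ih =>
    change (mask p ||| orAll e).testBit _ = true at h
    rw [Nat.testBit_or, mask_eq, M_spec, Bool.or_eq_true] at h
    rcases h with h | h
    · exact ⟨p, List.mem_cons_self, by simpa using h⟩
    · obtain ⟨q, hq, hq'⟩ := ih h
      exact ⟨q, List.mem_cons_of_mem _ hq, hq'⟩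

theorem upd_eq (j : ℕ) (b : Bool) (l : List (ℕ × ℕ)) :
    upd j b l = l.map fun p => (p.1, cond (Nat.testBit p.1 j == b) p.2 (p.2 - 1)) := by
  induction l with
  | nil => rfl
  | cons p l ih => rw [List.map_cons, ← ih]; rfl

theorem step_iff (z : ℕ → Bool) (j x k : ℕ) :
    dist x z (j + 1) < k ↔ dist x z j < cond (Nat.testBit x j == z j) k (k - 1) := by
  simp only [dist]
  by_cases h : x.testBit j = z j
  · simp [h]
  · have : (x.testBit j == z j) = false := by simpa using h
    simp only [h, this, if_false, cond_false]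
    omega

theorem check_succ (t : ℕ) (r e : List (ℕ × ℕ)) : check (t + 1) r e =
    (check t (upd (19 + t) false r) (fil (upd (19 + t) false e)) &&
      check t (upd (19 + t) true r) (fil (upd (19 + t) true e))) := rfl

theorem check_spec (z : ℕ → Bool) (t : ℕ) : ∀ r e : List (ℕ × ℕ), check t r e = true →
    (∀ p ∈ r, dist p.1 z (19 + t) < p.2) → ∃ p ∈ e, dist p.1 z (19 + t) < p.2 := by
  induction t with
  | zero =>
    intro r e h hr
    have h1 : andAll r ||| orAll e = orAll e := Nat.eq_of_beq_eq_true h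
    apply orAll_spec
    rw [← h1, Nat.testBit_or, andAll_spec z r hr]
    rfl
  | succ t ih =>
    intro r e h hr
    rw [check_succ, Bool.and_eq_true] at h
    have h1 : check t (upd (19 + t) (z (19 + t)) r) 
        (fil (upd (19 + t) (z (19 + t)) e)) = true := by
      cases z (19 + t)
      · exact h.1
      · exact h.2
    obtain ⟨p, hp, hp'⟩ := ih _ _ h1 (by
      intro p hp
      rw [upd_eq] at hp
      obtain ⟨q, hq, rfl⟩ := List.mem_map.1 hp
      exact (step_iff z (19 + t) q.1 q.2).1 (hr q hq))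
    replace hp := mem_fil _ _ hp
    rw [upd_eq] at hp
    obtain ⟨q, hq, rfl⟩ := List.mem_map.1 hp
    exact ⟨q, hq, (step_iff z (19 + t) q.1 q.2).2 hp'⟩

end Pool.Agent.H.VRQ
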