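import Pool.Agent.H.MP_360f22_gt.A

set_option autoImplicit false

namespace Pool.Agent.H.VRQ

def rows : List ℕ := [748263, 1496526, 2993052, 5986104, 11972208, 23944416, 47888832, 28668801,
  57337602, 47566341, 28023819, 56047638, 44986413, 22863963, 45727926, 24346989, 48693978,
  30279093, 60558186, 54007509, 40906155, 14703447, 29406894, 58813788, 50518713, 33928563]

def R0 : List (ℕ × ℕ) := rows.map fun x => (x, 15)
def E0 : List (ℕ × ℕ) := (0, 3) :: (134217727, 3) :: rows.map fun x => (x, 1)

theorem check_ok : check 8 R0 E0 = true := by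
  decide +kernel

end Pool.Agent.H.VRQ
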