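import Pool.Agent.Lib.helper9.BorsukUlam

set_option autoImplicit false

open Set Metric Finset
open scoped unitInterval Topology

namespace Pool.Agent.H.VRQ

theorem noretr {E : Type*} [NormedAddCommGroup E] [NormedSpace ℝ E] [FiniteDimensional ℝ E]
    (G : E → E) (hG : Continuous G) (hb : ∀ x, ‖x‖ = 1 → G x = x) : ∃ x, G x = 0 := by
  obtain ⟨z, hz, h⟩ := Pool.Agent.Lib.helper9.BorsukUlam.borsuk_ulam (E := E × ℝ) (F := E)
    (Or.inr (by simp)) (fun z => ((1 + z.2) / 2) • G z.1 - ((1 - z.2) / 2) • G (-z.1))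
    (by fun_prop) (fun z _ => by simp [sub_eq_add_neg])
  rw [Prod.norm_def, max_eq_iff] at hz
  rcases hz with ⟨h1, -⟩ | ⟨h1, -⟩
  · exfalso
    rw [hb _ h1, hb _ (by rwa [norm_neg]), smul_neg, sub_neg_eq_add, ← add_smul] at h
    have : (1 + z.2) / 2 + (1 - z.2) / 2 = 1 := by ring
    rw [this, one_smul] at h
    rw [h] at h1
    simp at h1
  · rw [Real.norm_eq_abs, abs_eq (by norm_num)] at h1
    rcases h1 with h1 | h1
    · exact ⟨z.1, by simpa [h1] using h⟩
    · exact ⟨-z.1, by simpa [h1] using h⟩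

theorem brouwer {E : Type*} [NormedAddCommGroup E] [NormedSpace ℝ E] [FiniteDimensional ℝ E]
    (f : E → E) (hf : Continuous f) (hb : ∀ x, ‖f x‖ ≤ 1) : ∃ x, f x = x := by
  obtain ⟨y, hy⟩ := noretr (fun y => y - (max 0 (min 1 (2 - 2 * ‖y‖)) / 2) • f ((2 : ℝ) • y))
    (by fun_prop) (fun x hx => by simp [hx])
  have h1 : ‖y‖ ≤ 1 / 2 := by
    rw [sub_eq_zero] at hy
    rw [hy, norm_smul, Real.norm_eq_abs, abs_of_nonneg (by positivity)]
    have : max 0 (min 1 (2 - 2 * ‖y‖)) ≤ 1 := max_le zero_le_one (min_le_left _ _)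
    have h2 := hb ((2 : ℝ) • y)
    have h3 : 0 ≤ max 0 (min 1 (2 - 2 * ‖y‖)) := le_max_left _ _
    nlinarith [norm_nonneg (f ((2 : ℝ) • y))]
  have h2 : max 0 (min 1 (2 - 2 * ‖y‖)) = 1 := by
    rw [min_eq_left (by linarith), max_eq_right zero_le_one]
  rw [h2, sub_eq_zero] at hy
  refine ⟨(2 : ℝ) • y, ?_⟩
  conv_rhs => rw [hy]
  rw [smul_smul]
  norm_num

theorem pi_nontrivial {X : Type} [TopologicalSpace X] (q : ℕ) (Φ : X → (Fin q → ℝ) × ℝ)
    (hΦ : Continuous Φ) (h0 : ∀ p, Φ p ≠ 0)
    (G : {t : (Fin q → ℝ) × ℝ // t ≠ 0} → X) (hG : Continuous G)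
    (hc : ∀ t, ∃ c : ℝ, 0 < c ∧ Φ (G t) = c • t.1) :
    ∃ x : X, ¬ Subsingleton (HomotopyGroup.Pi q X x) := by
  let u : (Fin q → I) → (Fin q → ℝ) := fun s i => 2 * (s i : ℝ) - 1
  have hu : Continuous u := by fun_prop
  have hne : ∀ s, (((1 - ‖u s‖) • u s, 2 * ‖u s‖ - 1) : (Fin q → ℝ) × ℝ) ≠ 0 := by
    intro s h
    have h1 : (1 - ‖u s‖) • u s = 0 := congrArg Prod.fst h
    have h2 : 2 * ‖u s‖ - 1 = 0 := congrArg Prod.snd h
    rcases smul_eq_zero.1 h1 with h3 | h3
    · linarith
    · rw [h3, norm_zero] at h2; norm_num at h2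
  have hb0 : (((0 : Fin q → ℝ), (1 : ℝ)) : (Fin q → ℝ) × ℝ) ≠ 0 := by simp
  have hle : ∀ s, ‖u s‖ ≤ 1 := by
    intro s
    rw [pi_norm_le_iff_of_nonneg zero_le_one]
    intro i
    rw [Real.norm_eq_abs, abs_le]
    constructor <;> simp only [u] <;> linarith [(s i).2.1, (s i).2.2]
  refine ⟨G ⟨(0, 1), hb0⟩, fun hs => ?_⟩
  let g : GenLoop (Fin q) X (G ⟨(0, 1), hb0⟩) :=
    ⟨⟨fun s => G ⟨_, hne s⟩, hG.comp (Continuous.subtype_mk (by fun_prop) _)⟩, by
      rintro s ⟨i, hi⟩
      have h1 : ‖u s‖ = 1 := by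
        refine le_antisymm (hle s) (le_trans ?_ (norm_le_pi_norm (u s) i))
        rcases hi with hi | hi <;> simp [u, hi] <;> norm_num
      show G _ = G _
      congr 1
      apply Subtype.ext
      simp only [h1]
      norm_num⟩
  have hq : (Quotient.mk _ g : HomotopyGroup (Fin q) X _) = Quotient.mk _ GenLoop.const :=
    hs.elim _ _
  obtain ⟨H⟩ : GenLoop.Homotopic g GenLoop.const := Quotient.exact hq
  let cl : ℝ → I := fun a => Set.projIcc 0 1 zero_le_one ((a + 1) / 2)
  have hcl : Continuous cl := continuous_projIcc.comp (by fun_prop)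
  let Ψ : (Fin q → ℝ) × ℝ → (Fin q → ℝ) × ℝ := fun z => Φ (H (cl z.2, fun i => cl (z.1 i)))
  have hΨ : Continuous Ψ := hΦ.comp (H.continuous.comp (by fun_prop))
  have hΨ0 : ∀ z, ‖Ψ z‖ ≠ 0 := fun z => norm_ne_zero_iff.2 (h0 _)
  obtain ⟨z, hz⟩ := brouwer (fun z => -(‖Ψ z‖⁻¹ • Ψ z))
    (((hΨ.norm.inv₀ hΨ0).smul hΨ).neg) (fun z => by
      rw [norm_neg, norm_smul, norm_inv, norm_norm, inv_mul_cancel₀ (hΨ0 z)])
  have hn : ‖z‖ = 1 := by
    rw [← hz, norm_neg, norm_smul, norm_inv, norm_norm, inv_mul_cancel₀ (hΨ0 z)]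
  have hμ : 0 < ‖Ψ z‖ := lt_of_le_of_ne (norm_nonneg _) (hΨ0 z).symm
  have hz' : Ψ z = -(‖Ψ z‖ • z) := by
    conv_rhs => enter [1, 2]; rw [← hz]
    rw [smul_neg, neg_neg, smul_smul, mul_inv_cancel₀ (hΨ0 z), one_smul]
  obtain ⟨c, hc0, hc1⟩ := hc ⟨(0, 1), hb0⟩
  have hbase : H (cl z.2, fun i => cl (z.1 i)) = G ⟨(0, 1), hb0⟩ → z.1 = 0 ∧ z.2 < 0 := by
    intro h
    have h1 : Ψ z = c • ((0 : Fin q → ℝ), (1 : ℝ)) := by simp only [Ψ]; rw [h, hc1]
    rw [hz'] at h1
    have h2 := congrArg Prod.fst h1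
    have h3 := congrArg Prod.snd h1
    simp only [Prod.fst_neg, Prod.smul_fst, smul_zero, neg_eq_zero, smul_eq_zero, hμ.ne',
      false_or, Prod.snd_neg, Prod.smul_snd, smul_eq_mul, mul_one] at h2 h3
    exact ⟨h2, by nlinarith⟩
  have hz1 : ‖z.1‖ ≤ 1 := hn ▸ norm_fst_le z
  rw [Prod.norm_def, max_eq_iff] at hn
  rcases hn with ⟨h1, -⟩ | ⟨h1, -⟩
  · have hex : ∃ i, |z.1 i| = 1 := by
      by_contra hcon
      push Not at hcon
      have : ‖z.1‖ < 1 := by
        rw [pi_norm_lt_iff zero_lt_one]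
        intro i
        exact lt_of_le_of_ne (h1 ▸ norm_le_pi_norm z.1 i) (hcon i)
      linarith
    obtain ⟨i, hi⟩ := hex
    have hbd : (fun i => cl (z.1 i)) ∈ Cube.boundary (Fin q) := by
      refine ⟨i, ?_⟩
      rcases (abs_eq zero_le_one).1 hi with hi | hi
      · right; simp [cl, hi]
      · left; simp [cl, hi]
    have := (hbase ((H.eq_snd _ hbd).trans rfl)).1
    rw [this, norm_zero] at h1
    norm_num at h1
  · rcases (abs_eq zero_le_one).1 h1 with h1 | h1
    · have h2 : cl z.2 = 1 := by simp [cl, h1]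
      have := (hbase (by rw [h2]; exact (H.apply_one _).trans rfl)).2
      linarith
    · have h2 : cl z.2 = 0 := by simp [cl, h1]
      have h3 : u (fun i => cl (z.1 i)) = z.1 := by
        funext i
        have h4 := abs_le.1 ((norm_le_pi_norm z.1 i).trans hz1)
        simp only [u, cl]
        rw [Set.projIcc_of_mem _ ⟨by linarith, by linarith⟩]
        ring
      obtain ⟨c', hc0', hc1'⟩ := hc ⟨_, hne (fun i => cl (z.1 i))⟩
      have h5 : Ψ z = c' • (((1 - ‖z.1‖) • z.1, 2 * ‖z.1‖ - 1) : (Fin q → ℝ) × ℝ) := by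
        simp only [Ψ]
        rw [h2, H.apply_zero]
        exact hc1'.trans (by simp only [h3])
      rw [hz'] at h5
      have h6 := congrArg Prod.fst h5
      have h7 := congrArg Prod.snd h5
      simp only [Prod.fst_neg, Prod.smul_fst, Prod.snd_neg, Prod.smul_snd, smul_eq_mul, h1,
        smul_smul] at h6 h7
      have h8 : (c' * (1 - ‖z.1‖) + ‖Ψ z‖) • z.1 = 0 := by
        rw [add_smul, ← h6]; simp
      rcases smul_eq_zero.1 h8 with h9 | h9
      · nlinarith [mul_nonneg hc0'.le (sub_nonneg.2 hz1)]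
      · rw [h9, norm_zero] at h7
        nlinarith

theorem complex_nontrivial {V : Type} [Fintype V] [DecidableEq V] (adj : V → V → Prop) (q : ℕ)
    (P : Option (Fin q) × Bool → V) (cl : V → Option (Option (Fin q) × Bool))
    (hP : ∀ c, cl (P c) = some c)
    (h1 : ∀ u v o, cl u = some (o, true) → cl v = some (o, false) → ¬ adj u v)
    (h2 : ∀ v, (∀ o, ∃ u, cl u = some (o, true) ∧ adj v u) → cl v ≠ none)
    (h3 : ∀ c c', (c.1 = c'.1 → c = c') → adj (P c) (P c'))
    (X : Set (V → ℝ))
    (hX : X = ⋃ (τ : Finset V) (_ : ∀ v ∈ τ, ∀ w ∈ τ, adj v w),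
      convexHull ℝ ((fun v : V => (Pi.single v (1 : ℝ) : V → ℝ)) '' (τ : Set V))) :
    ∃ x : X, ¬ Subsingleton (HomotopyGroup.Pi q X x) := by
  classical
  let m : Option (Option (Fin q) × Bool) → (V → ℝ) → ℝ :=
    fun c p => ∑ v, if cl v = c then p v else 0
  have hm : ∀ c, Continuous (m c) := by
    intro c
    apply continuous_finsetSum
    intro v _
    by_cases h : cl v = c
    · simp only [h, if_true]; exact continuous_apply v
    · simp only [h, if_false]; exact continuous_const
  have hprop : ∀ p ∈ X, (∀ v, 0 ≤ p v) ∧ ∑ v, p v = 1 ∧ ∀ v w, p v ≠ 0 → p w ≠ 0 → adj v w := by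
    intro p hp
    rw [hX] at hp
    simp only [Set.mem_iUnion] at hp
    obtain ⟨τ, hτ, hp⟩ := hp
    have hcv : Convex ℝ (stdSimplex ℝ V ∩ {p | ∀ v, v ∉ τ → p v = 0}) := by
      apply (convex_stdSimplex ℝ V).inter
      intro a ha b hb s t _ _ _ v hv
      simp [ha v hv, hb v hv]
    have := convexHull_min (by
      rintro _ ⟨v, hv, rfl⟩
      refine ⟨single_mem_stdSimplex ℝ v, fun w hw => ?_⟩
      have : w ≠ v := fun e => hw (e ▸ hv)
      simp [this]) hcv hp
    refine ⟨this.1.1, this.1.2, fun v w hv hw => hτ v ?_ w ?_⟩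
    · by_contra h; exact hv (this.2 v h)
    · by_contra h; exact hw (this.2 w h)
  let co : (Fin q → ℝ) × ℝ → Option (Fin q) → ℝ := fun t o => o.elim t.2 t.1
  have hco : ∀ o, Continuous fun t => co t o := by
    intro o
    cases o with
    | none => exact continuous_snd
    | some i => exact (continuous_apply i).comp continuous_fst
  let N : (Fin q → ℝ) × ℝ → ℝ := fun t => ∑ o, |co t o|
  have hN : Continuous N := continuous_finsetSum _ fun o _ => (hco o).abs
  have hNpos : ∀ t, t ≠ 0 → 0 < N t := by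
    intro t ht
    by_contra hle
    have hz : N t = 0 := le_antisymm (not_lt.1 hle) (Finset.sum_nonneg fun o _ => abs_nonneg _)
    have := (Finset.sum_eq_zero_iff_of_nonneg fun o _ => abs_nonneg _).1 hz
    apply ht
    ext i
    · exact abs_eq_zero.1 (this (some i) (Finset.mem_univ _))
    · exact abs_eq_zero.1 (this none (Finset.mem_univ _))
  let wt : (Fin q → ℝ) × ℝ → Option (Fin q) × Bool → ℝ :=
    fun t c => (N t)⁻¹ * max (cond c.2 (co t c.1) (-co t c.1)) 0
  let G0 : (Fin q → ℝ) × ℝ → V → ℝ := fun t => ∑ c, wt t c • (Pi.single (P c) (1 : ℝ) : V → ℝ)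
  have hmem : ∀ t, t ≠ 0 → G0 t ∈ X := by
    intro t ht
    rw [hX]
    simp only [Set.mem_iUnion]
    refine ⟨(univ.filter fun c => wt t c ≠ 0).image P, ?_, ?_⟩
    · intro v hv w hw
      obtain ⟨⟨o, b⟩, hc, rfl⟩ := Finset.mem_image.1 hv
      obtain ⟨⟨o', b'⟩, hc', rfl⟩ := Finset.mem_image.1 hw
      apply h3
      intro e
      simp only at e
      subst e
      have e1 := (mul_ne_zero_iff.1 (Finset.mem_filter.1 hc).2).2
      have e2 := (mul_ne_zero_iff.1 (Finset.mem_filter.1 hc').2).2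
      cases b <;> cases b'
      · rfl
      · exfalso
        simp only [cond_false, cond_true, ne_eq, max_eq_right_iff, not_le] at e1 e2
        linarith
      · exfalso
        simp only [cond_false, cond_true, ne_eq, max_eq_right_iff, not_le] at e1 e2
        linarith
      · rfl
    · have e : G0 t = ∑ c ∈ univ.filter fun c => wt t c ≠ 0,
          wt t c • (Pi.single (P c) (1 : ℝ) : V → ℝ) := by
        simp only [G0]
        rw [Finset.sum_filter]
        refine Finset.sum_congr rfl fun c _ => ?_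
        split_ifs with h
        · rfl
        · rw [not_not.1 h, zero_smul]
      rw [e]
      apply (convex_convexHull ℝ _).sum_mem
      · intro c _
        exact mul_nonneg (inv_nonneg.2 (hNpos t ht).le) (le_max_right _ _)
      · rw [Finset.sum_filter_ne_zero, ← Finset.mul_sum, Fintype.sum_prod_type]
        have : ∑ o, ∑ b : Bool, max (cond b (co t o) (-co t o)) 0 = N t := by
          refine Finset.sum_congr rfl fun o _ => ?_
          simp only [Fintype.sum_bool, cond_true, cond_false]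
          exact max_zero_add_max_neg_zero_eq_abs_self _
        rw [this, inv_mul_cancel₀ (hNpos t ht).ne']
      · intro c hc
        exact subset_convexHull ℝ _ ⟨P c, Finset.mem_coe.2 (Finset.mem_image_of_mem _ hc), rfl⟩
  have hmG : ∀ t c, m c (G0 t) = c.elim 0 (wt t) := by
    intro t c
    simp only [m, G0, Finset.sum_apply, Pi.smul_apply, smul_eq_mul]
    have : ∀ v, (if cl v = c then ∑ c', wt t c' * (Pi.single (P c') (1 : ℝ) : V → ℝ) v else 0) =
        ∑ c', wt t c' * (if v = P c' then (if cl v = c then 1 else 0) else 0) := by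
      intro v
      split_ifs with h
      · refine Finset.sum_congr rfl fun c' _ => ?_
        simp [Pi.single_apply]
      · simp
    simp only [this]
    rw [Finset.sum_comm]
    simp only [← Finset.mul_sum, Finset.sum_ite_eq', Finset.mem_univ, if_true, hP]
    cases c with
    | none => simp
    | some c => simp
  let φ : Option (Fin q) → (V → ℝ) → ℝ :=
    fun o p => m (some (o, true)) p - m (some (o, false)) p - m none p
  have hφ : ∀ o, Continuous (φ o) := fun o => ((hm _).sub (hm _)).sub (hm _)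
  apply pi_nontrivial q (fun p : X => (fun i => φ (some i) p.1, φ none p.1))
    (by fun_prop) ?_ (fun t => ⟨G0 t.1, hmem t.1 t.2⟩) ?_ ?_
  · rintro ⟨p, hp⟩ h
    obtain ⟨p0, p1, p2⟩ := hprop p hp
    have hall : ∀ o, φ o p = 0 := by
      intro o
      cases o with
      | none => exact congrArg Prod.snd h
      | some i => exact congrFun (congrArg Prod.fst h) i
    have hnn : ∀ c, 0 ≤ m c p := fun c =>
      Finset.sum_nonneg fun v _ => by split_ifs; exacts [p0 v, le_rfl]
    have hex : ∀ c, m c p ≠ 0 → ∃ v, cl v = c ∧ p v ≠ 0 := by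
      intro c hc
      obtain ⟨v, -, hv⟩ := Finset.exists_ne_zero_of_sum_ne_zero hc
      by_cases e : cl v = c
      · exact ⟨v, e, by simpa [e] using hv⟩
      · simp [e] at hv
    by_cases hρ : m none p = 0
    · have hz : ∀ c, m c p = 0 := by
        have key : ∀ o, m (some (o, true)) p = 0 ∧ m (some (o, false)) p = 0 := by
          intro o
          have e : m (some (o, true)) p = m (some (o, false)) p := by
            have := hall o
            simp only [φ] at this
            linarith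
          by_cases e' : m (some (o, true)) p = 0
          · exact ⟨e', e ▸ e'⟩
          · obtain ⟨u, hu, hu'⟩ := hex _ e'
            obtain ⟨v, hv, hv'⟩ := hex _ (e ▸ e')
            exact absurd (p2 u v hu' hv') (h1 u v o hu hv)
        rintro (_ | ⟨o, _ | _⟩)
        · exact hρ
        · exact (key o).2
        · exact (key o).1
      have : ∑ v, p v = 0 := by
        apply Finset.sum_eq_zero
        intro v _
        have := (Finset.sum_eq_zero_iff_of_nonneg
          (fun v _ => by split_ifs; exacts [p0 v, le_rfl])).1 (hz (cl v)) v (Finset.mem_univ _)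
        simpa using this
      rw [p1] at this
      exact one_ne_zero this
    · obtain ⟨v, hv, hv'⟩ := hex _ hρ
      refine h2 v (fun o => ?_) hv
      have hpos : m (some (o, true)) p ≠ 0 := by
        have := hall o
        simp only [φ] at this
        have h5 := hnn (some (o, false))
        have h6 := lt_of_le_of_ne (hnn none) (Ne.symm hρ)
        have h7 : 0 < m (some (o, true)) p := by linarith
        exact h7.ne'
      obtain ⟨u, hu, hu'⟩ := hex _ hpos
      exact ⟨u, hu, p2 v u hv' hu'⟩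
  · apply Continuous.subtype_mk
    apply continuous_finsetSum
    intro c _
    refine Continuous.smul (f := fun a : {t : (Fin q → ℝ) × ℝ // t ≠ 0} => wt a.1 c) ?_
      continuous_const
    apply Continuous.mul
    · exact (hN.comp continuous_subtype_val).inv₀ fun t => (hNpos t.1 t.2).ne'
    · apply Continuous.max _ continuous_const
      cases c.2
      · exact ((hco _).comp continuous_subtype_val).neg
      · exact (hco _).comp continuous_subtype_val
  · intro t
    refine ⟨(N t.1)⁻¹, inv_pos.2 (hNpos t.1 t.2), ?_⟩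
    have : ∀ o, φ o (G0 t.1) = (N t.1)⁻¹ * co t.1 o := by
      intro o
      simp only [φ, hmG, Option.elim, wt, cond_true, cond_false, sub_zero]
      rw [← mul_sub, max_zero_sub_max_neg_zero_eq_self]
    ext i
    · exact this (some i)
    · exact this none

end Pool.Agent.H.VRQ
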