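import Pool.Agent.H.MP_360f22_gt.B
import Pool.Agent.H.MP_360f22_gt.C

set_option autoImplicit false

open Finset

namespace Pool.Agent.H.VRQ

def hrows : List ℕ := [16384, 83006408, 166012816, 63606562, 127213124, 254426248, 240433426,
  212447782, 156476494, 44533918, 89067836, 178135672, 87852274, 175704548, 268419073, 185455562,
  102492052, 204951338, 141483604, 14548136, 29063506, 58094246, 116155726, 232278686, 196138300,
  123857528, 247682290, 226945508]

def had (i j : ℕ) : ℤ := if (hrows.getD i 0).testBit j then -1 else 1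

theorem had_orth : ∀ i j : Fin (2 * 14), ∑ k : Fin (2 * 14), had i k * had j k =
    if i = j then 28 else 0 := by
  decide +kernel

theorem hadamard : ∃ H : Matrix (Fin (2 * 14)) (Fin (2 * 14)) ℤ,
    (∀ i j, H i j = 1 ∨ H i j = -1) ∧
    H * H.transpose = (2 * ((14 : ℕ) : ℤ)) • (1 : Matrix (Fin (2 * 14)) (Fin (2 * 14)) ℤ) := by
  refine ⟨Matrix.of fun i j => had i j, fun i j => ?_, ?_⟩
  · simp only [Matrix.of_apply, had]
    split_ifs <;> simp
  · ext i j
    simp only [Matrix.mul_apply, Matrix.of_apply, Matrix.transpose_apply, had_orth,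
      Matrix.smul_apply, Matrix.one_apply]
    split_ifs <;> simp

theorem ham_eq (x : ℕ) (z : ℕ → Bool) (n : ℕ) :
    hammingDist (fun j : Fin n => x.testBit j) (fun j : Fin n => z j) = dist x z n := by
  unfold hammingDist
  rw [Finset.card_filter]
  induction n with
  | zero => simp [dist]
  | succ n ih =>
    rw [Fin.sum_univ_castSucc]
    simp only [Fin.val_castSucc, Fin.val_last, ih, dist]
    congr 1
    by_cases h : x.testBit n = z n <;> simp [h]

def code : Option (Fin 26) × Bool → ℕ
  | (some i, true) => rows.getD i 0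
  | (some i, false) => 67108863 - rows.getD i 0
  | (none, true) => 0
  | (none, false) => 134217727

def rad : Option (Fin 26) × Bool → ℕ
  | (some _, _) => 0
  | (none, _) => 2

theorem f1 : ∀ c c' : Option (Fin 26) × Bool, c ≠ c' →
    rad c + rad c' < dist (code c) (code c').testBit 27 := by decide +kernel

theorem f2 : ∀ o : Option (Fin 26),
    14 + rad (o, true) + rad (o, false) < dist (code (o, true)) (code (o, false)).testBit 27 := by
  decide +kernel

theorem f3 : ∀ c c' : Option (Fin 26) × Bool, c.1 ≠ c'.1 →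
    dist (code c) (code c').testBit 27 ≤ 14 := by decide +kernel

theorem f4 : ∀ p ∈ R0, ∃ i : Fin 26, code (some i, true) = p.1 ∧ p.2 = 15 := by decide +kernel

theorem f5 : ∀ p ∈ E0, ∃ c, code c = p.1 ∧ rad c + 1 = p.2 := by decide +kernel

theorem main (X : Set ((Fin 27 → Bool) → ℝ))
    (hX : X = ⋃ (σ : Finset (Fin 27 → Bool)) (_ : ∀ v ∈ σ, ∀ w ∈ σ, hammingDist v w ≤ 14),
      convexHull ℝ ((fun v : Fin 27 → Bool => (Pi.single v (1 : ℝ) : (Fin 27 → Bool) → ℝ)) ''
        (σ : Set (Fin 27 → Bool)))) :
    ∃ x : X, ¬ Subsingleton (HomotopyGroup.Pi 26 X x) := by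
  classical
  obtain ⟨P, hP⟩ : ∃ P : Option (Fin 26) × Bool → Fin 27 → Bool,
    ∀ c, P c = fun j : Fin 27 => (code c).testBit j := ⟨_, fun _ => rfl⟩
  have hD : ∀ c c', hammingDist (P c) (P c') = dist (code c) (code c').testBit 27 := by
    intro c c'
    rw [hP, hP, ham_eq]
  obtain ⟨cl, hcl, hcl'⟩ : ∃ cl : (Fin 27 → Bool) → Option (Option (Fin 26) × Bool),
      (∀ v c, cl v = some c → hammingDist (P c) v ≤ rad c) ∧
      ∀ v c, hammingDist (P c) v ≤ rad c → cl v ≠ none := by
    refine ⟨fun v => if h : ∃ c, hammingDist (P c) v ≤ rad c then some h.choose else none, ?_, ?_⟩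
    · intro v c e
      by_cases h : ∃ c, hammingDist (P c) v ≤ rad c
      · simp only [dif_pos h, Option.some.injEq] at e
        exact e ▸ h.choose_spec
      · simp only [dif_neg h] at e
        exact absurd e (by simp)
    · intro v c h
      have h' : ∃ c, hammingDist (P c) v ≤ rad c := ⟨c, h⟩
      simp only [dif_pos h']
      simp
  refine complex_nontrivial (fun v w => hammingDist v w ≤ 14) 26 P cl ?_ ?_ ?_ ?_ X ?_
  · intro c
    have h := hcl' (P c) c (by simp)
    obtain ⟨c', hc'⟩ := Option.ne_none_iff_exists'.1 h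
    rw [hc']
    by_contra hne
    have h1 := f1 c' c fun e => hne (by rw [e])
    have h2 := hcl _ _ hc'
    rw [hD] at h2
    omega
  · intro u v o hu hv huv
    have h1 := hcl _ _ hu
    have h2 := hcl _ _ hv
    have h3 := f2 o
    rw [← hD] at h3
    have h4 := hammingDist_triangle (P (o, true)) u (P (o, false))
    have h5 := hammingDist_triangle u v (P (o, false))
    rw [hammingDist_comm v] at h5
    omega
  · intro v hv
    obtain ⟨z, hz⟩ : ∃ z : ℕ → Bool, v = fun j : Fin 27 => z j :=
      ⟨fun j => if h : j < 27 then v ⟨j, h⟩ else false, by funext j; simp⟩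
    have hd : ∀ c, hammingDist (P c) v = dist (code c) z 27 := by
      intro c
      rw [hP, hz, ham_eq]
    obtain ⟨p, hp, hp'⟩ := check_spec z 8 R0 E0 check_ok (by
      intro p hp
      obtain ⟨i, hi, hi'⟩ := f4 p hp
      obtain ⟨u, hu, hu'⟩ := hv (some i)
      have h1 : hammingDist (P (some i, true)) u ≤ 0 := hcl _ _ hu
      have h2 : P (some i, true) = u := hammingDist_eq_zero.1 (Nat.le_zero.1 h1)
      have h3 := hd (some i, true)
      rw [h2, hi, hammingDist_comm] at h3
      show dist p.1 z 27 < p.2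
      omega)
    obtain ⟨c, hc, hc'⟩ := f5 p hp
    apply hcl' v c
    rw [hd, hc]
    change dist p.1 z 27 < p.2 at hp'
    omega
  · intro c c' h
    by_cases e : c.1 = c'.1
    · rw [h e]; simp
    · show hammingDist _ _ ≤ 14
      rw [hD]
      exact f3 c c' e
  · exact hX

end Pool.Agent.H.VRQ
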